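import Mathlib
import Pool.Agent.R93.AvoidBase

open R93.Avoid

namespace Pool.Agent.Results.MP_2a6b7d_co.Proximity

/-- Let `M` be a matroid of finite rank (for instance any finite matroid), `ψ` a labelling of its
elements by an arbitrary abelian group and `F` a finite set of forbidden labels such that some base
of `M` has its label (the sum of the labels of its elements) outside `F`. Then for every base `B`
there is a base `B'` whose label is outside `F` with `|B \ B'| ≤ |F|`. -/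
theorem result {α Γ : Type*} [AddCommGroup Γ] (M : Matroid α) [M.RankFinite] (ψ : α → Γ)
    (F : Finset Γ) (hF : ∃ B₀ : Set α, M.IsBase B₀ ∧ (∑ᶠ e ∈ B₀, ψ e) ∉ F)
    (B : Set α) (hB : M.IsBase B) :
    ∃ B' : Set α, M.IsBase B' ∧ (∑ᶠ e ∈ B', ψ e) ∉ F ∧ (B \ B').ncard ≤ F.card := by
  classical
  -- pass to finsets
  have hfin : ∀ N : Set α, M.IsBase N → ∃ T : Finset α, (T : Set α) = N := fun N hN =>
    ⟨hN.finite.toFinset, hN.finite.coe_toFinset⟩
  have hsum : ∀ T : Finset α, (∑ᶠ e ∈ (T : Set α), ψ e) = ∑ e ∈ T, ψ e := fun T =>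
    finsum_mem_coe_finset ψ T
  obtain ⟨T, rfl⟩ := hfin B hB
  -- a closest avoiding base
  let P : ℕ → Prop := fun n => ∃ S : Finset α, M.IsBase (S : Set α) ∧ (∑ e ∈ S, ψ e) ∉ F ∧
    (T \ S).card = n
  have hP : ∃ n, P n := by
    obtain ⟨B₀, hB₀, hB₀F⟩ := hF
    obtain ⟨S, rfl⟩ := hfin B₀ hB₀
    rw [hsum] at hB₀F
    exact ⟨_, S, hB₀, hB₀F, rfl⟩
  obtain ⟨S, hS, hSF, hSn⟩ := Nat.find_spec hP
  have hmin : ∀ N : Finset α, M.IsBase (N : Set α) → (∑ e ∈ N, ψ e) ∉ F →
      (T \ S).card ≤ (T \ N).card := by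
    intro N hN hNF
    rw [hSn]
    exact Nat.find_min' hP ⟨N, hN, hNF, rfl⟩
  have hLab : Lab M ψ S (T \ S) (T ∩ S) ⊆ F := by
    intro x hx
    obtain ⟨N, hNU, hN, hKN, hNS, rfl⟩ := mem_Lab.1 hx
    by_contra hxF
    have hle := hmin N hN hxF
    have hsub : T \ N ⊆ T \ S := by
      intro y hy
      rw [Finset.mem_sdiff] at hy ⊢
      exact ⟨hy.1, fun hyS => hy.2 (hKN (Finset.mem_inter.2 ⟨hy.1, hyS⟩))⟩
    have heq : T \ N = T \ S := Finset.eq_of_subset_of_card_le hsub hle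
    have hNsubS : N ⊆ S := by
      intro y hy
      rcases Finset.mem_union.1 (hNU hy) with h | h
      · exfalso
        rw [← heq] at h
        exact (Finset.mem_sdiff.1 h).2 hy
      · exact h
    have : (N : Set α) = (S : Set α) :=
      hN.eq_of_subset_isBase hS (Finset.coe_subset.2 hNsubS)
    exact hNS (Finset.coe_injective this)
  have hc : (∑ e ∈ S, ψ e) ∉ Lab M ψ S (T \ S) (T ∩ S) := fun h => hSF (hLab h)
  have hcard := card_le_Lab M ψ S T hS hB hc
  refine ⟨S, hS, by rw [hsum]; exact hSF, ?_⟩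
  rw [← Finset.coe_sdiff, Set.ncard_coe_finset]
  exact hcard.trans (Finset.card_le_card hLab)

end Pool.Agent.Results.MP_2a6b7d_co.Proximity
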